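import Mathlib
import Pool.Agent.H52.TM1

namespace Pool.Agent.Results.MP_25bc1d_an.SigmaShortest

open Pool.Agent.H52.TM1

/-- The symmetric tent map of height `μ`. -/
noncomputable def tent (μ x : ℝ) : ℝ := 2 * μ * min x (1 - x)

/-- `π` (positions and values counted from `0`) is the order pattern of length `n` of some
point of `[0,1]` under the tent map of height `μ`. -/
def Allowed (μ : ℝ) {n : ℕ} (π : Equiv.Perm (Fin n)) : Prop :=
  ∃ x ∈ Set.Icc (0 : ℝ) 1, Function.Injective (fun i : Fin n => (tent μ)^[i] x) ∧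
    ∀ i j : Fin n, π i < π j ↔ (tent μ)^[i] x < (tent μ)^[j] x

/-- Allowed for the full tent map and not allowed for the tent map of height `μ`. -/
def Forbidden (μ : ℝ) {n : ℕ} (π : Equiv.Perm (Fin n)) : Prop := Allowed 1 π ∧ ¬ Allowed μ π

/-- The pattern `(n-1) n 1 2 ... (n-2)` of length `n = m + 2`, counted from `0`. -/
def sigma (m : ℕ) : Equiv.Perm (Fin (m + 2)) where
  toFun i := ⟨if (i : ℕ) < 2 then m + i else i - 2, by have := i.2; split_ifs <;> omega⟩
  invFun j := ⟨if (j : ℕ) < m then j + 2 else j - m, by have := j.2; split_ifs <;> omega⟩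
  left_inv i := by
    have := i.2
    apply Fin.ext
    dsimp only
    split_ifs <;> omega
  right_inv j := by
    have := j.2
    apply Fin.ext
    dsimp only
    split_ifs <;> omega

lemma sigma_lt (m : ℕ) (i j : Fin (m + 2)) : sigma m i < sigma m j ↔
    (if (i : ℕ) < 2 then m + i else i - 2) < (if (j : ℕ) < 2 then m + j else j - 2) := Iff.rfl

lemma allowed_of {μ : ℝ} {n : ℕ} (π : Equiv.Perm (Fin n)) {x : ℝ} (hx : x ∈ Set.Icc (0 : ℝ) 1)
    (h : ∀ i j : Fin n, π i < π j → (tent μ)^[i] x < (tent μ)^[j] x) : Allowed μ π := by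
  refine ⟨x, hx, fun i j hij => ?_, fun i j => ⟨h i j, fun hl => ?_⟩⟩
  · rcases lt_trichotomy (π i) (π j) with h1 | h1 | h1
    · exact absurd hij (h i j h1).ne
    · exact π.injective h1
    · exact absurd hij (h j i h1).ne'
  · rcases lt_trichotomy (π i) (π j) with h1 | h1 | h1
    · exact h1
    · rw [π.injective h1] at hl; exact absurd hl (lt_irrefl _)
    · exact absurd hl (h j i h1).not_gt

lemma tent_lo (μ : ℝ) {x : ℝ} (h : x ≤ 1 / 2) : tent μ x = 2 * μ * x := by
  rw [tent, min_eq_left (by linarith)]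

lemma tent_hi (μ : ℝ) {x : ℝ} (h : 1 / 2 ≤ x) : tent μ x = 2 * μ * (1 - x) := by
  rw [tent, min_eq_right (by linarith)]

lemma transfer {μ : ℝ} (h1 : 1 / 2 < μ) (h2 : μ < 1) {N : ℕ} (hN : 0 < N)
    (hc : (2 * μ) ^ (N - 1) * (2 - 2 * μ) < 1) (π : Equiv.Perm (Fin (N + 1)))
    (h : Allowed 1 π) : Allowed μ π := by
  classical
  obtain ⟨x0, hx0, -, hπ⟩ := h
  have hs : 1 < 2 * μ := by linarith
  have hs0 : 0 < 2 * μ := by linarith
  have hx01 : ∀ k, 0 ≤ (tent 1)^[k] x0 ∧ (tent 1)^[k] x0 ≤ 1 := by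
    intro k
    induction k with
    | zero => exact hx0
    | succ k ih =>
      rw [Function.iterate_succ_apply']
      rcases le_total ((tent 1)^[k] x0) (1 / 2) with h | h
      · rw [tent_lo _ h]; constructor <;> linarith [ih.1]
      · rw [tent_hi _ h]; constructor <;> linarith [ih.2]
  obtain ⟨y, hy0, hy1, hy2⟩ := realise hs (by linarith) hN hc
    (fun k => decide (1 / 2 < (tent 1)^[k] x0)) (fun k => (tent 1)^[k] x0)
    (by
      intro k _
      simp only [Function.iterate_succ_apply']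
      by_cases h : 1 / 2 < (tent 1)^[k] x0
      · rw [decide_eq_true h, ph_t, tent_hi _ h.le]; ring
      · rw [decide_eq_false h, ph_f, tent_lo _ (not_lt.1 h)]; ring) hx01
  set w : ℕ → Bool := fun k => decide (1 / 2 < (tent 1)^[k] x0)
  have hy : y ≤ 1 := by
    have := hy1 N le_rfl
    rw [z_N] at this
    linarith
  have hit : ∀ k ≤ N, (tent μ)^[k] (z (2 * μ) w N y 0) = z (2 * μ) w N y k := by
    intro k
    induction k with
    | zero => intro _; rfl
    | succ k ih =>
      intro hk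
      rw [Function.iterate_succ_apply', ih (by omega), z_step _ w y (show k < N by omega)]
      have g1 : z (2 * μ) w N y (k + 1) / (2 * μ) < 1 / 2 := by
        rw [div_lt_iff₀ hs0]; linarith [hy1 (k + 1) hk]
      cases w k
      · rw [ph_f, tent_lo _ g1.le]; field_simp
      · rw [ph_t, tent_hi _ (by linarith)]; field_simp; ring
  refine allowed_of π (x := z (2 * μ) w N y 0) (z_mem hs.le w N hy0 hy 0) fun i j hij => ?_
  rw [hit i (by omega), hit j (by omega)]
  exact hy2 i (by omega) j (by omega) ((hπ i j).1 hij)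

lemma cond_of {μ : ℝ} (h1 : 1 / 2 < μ) (m : ℕ) (h : Allowed μ (sigma m)) :
    (2 * μ) ^ m * (2 - 2 * μ) < 1 := by
  rcases Nat.eq_zero_or_pos m with rfl | hm
  · simp; linarith
  obtain ⟨x, hx, -, hπ⟩ := h
  have hs : 1 < 2 * μ := by linarith
  set t : ℕ → ℝ := fun k => (tent μ)^[k] x with ht
  have hst : ∀ k, t (k + 1) = tent μ (t k) := fun k => Function.iterate_succ_apply' _ _ _
  have h01 : t 0 < t 1 := (hπ ⟨0, by omega⟩ ⟨1, by omega⟩).1 (by rw [sigma_lt]; simp)
  have hlt : ∀ k, 2 ≤ k → k ≤ m + 1 → t k < t 0 := fun k a b =>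
    (hπ ⟨k, by omega⟩ ⟨0, by omega⟩).1 (by
      rw [sigma_lt]; simp only []; split_ifs <;> omega)
  have hx0 : 0 ≤ t 0 := hx.1
  have hlo : ∀ k, 2 ≤ k → k ≤ m → t k ≤ 1 / 2 := by
    intro k a b
    by_contra hh
    push Not at hh
    have e1 := hlt k a (by omega)
    have e2 := hlt (k + 1) (by omega) (by omega)
    have e3 : t 1 = 2 * μ * (1 - t 0) := by rw [hst 0, tent_hi _ (by linarith)]
    rw [hst k, tent_hi _ hh.le] at e2
    nlinarith
  have h2 : t 2 = 2 * μ * (1 - t 1) := by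
    rcases le_total (t 1) (1 / 2) with h | h
    · have e := hlt 2 le_rfl (by omega)
      rw [hst 1, tent_lo _ h] at e
      nlinarith
    · rw [hst 1, tent_hi _ h]
  have hpow : ∀ k, k + 1 ≤ m → t (k + 2) = (2 * μ) ^ (k + 1) * (1 - t 1) := by
    intro k
    induction k with
    | zero => intro _; simpa using h2
    | succ k ih =>
      intro hk
      rw [show k + 1 + 2 = (k + 2) + 1 by ring, hst, tent_lo _ (hlo _ (by omega) (by omega)),
        ih (by omega)]
      ring
  have e := hpow (m - 1) (by omega)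
  rw [show m - 1 + 2 = m + 1 by omega, show m - 1 + 1 = m by omega] at e
  have e2 := hlt (m + 1) (by omega) le_rfl
  rw [e] at e2
  have hP : 1 ≤ (2 * μ) ^ m := one_le_pow₀ hs.le
  set P := (2 * μ) ^ m
  rcases le_total (t 0) (1 / 2) with h | h
  · have e3 : t 1 = 2 * μ * t 0 := by rw [hst 0, tent_lo _ h]
    have : t 1 ≤ μ := by rw [e3]; nlinarith
    nlinarith
  · have e3 : t 1 = 2 * μ * (1 - t 0) := by rw [hst 0, tent_hi _ h]
    rw [e3] at e2
    have h5 : 0 ≤ (P * (2 * μ) - 1) * (t 0 - 1 / 2) := mul_nonneg (by nlinarith) (by linarith)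
    nlinarith

lemma sigma_full (m : ℕ) : Allowed 1 (sigma m) := by
  set ε : ℝ := (1 / 2) ^ (m + 3) with hε
  have hpos : 0 < ε := by positivity
  have hq : ∀ k ≤ m + 1, (2 : ℝ) ^ k * ε ≤ 1 / 4 := by
    intro k hk
    have a : (2 : ℝ) ^ k ≤ 2 ^ (m + 1) := pow_le_pow_right₀ (by norm_num) hk
    have b : (2 : ℝ) ^ (m + 1) * ε = 1 / 4 := by
      rw [hε, show m + 3 = (m + 1) + 2 by ring, pow_add (1 / 2 : ℝ), ← mul_assoc, ← mul_pow]; norm_num
    nlinarith
  have h8 : 2 * ε ≤ 1 / 4 := by simpa using hq 1 (by omega)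
  have e1 : (tent 1)^[1] (1 / 2 - ε) = 1 - 2 * ε := by
    rw [Function.iterate_one, tent_lo _ (by linarith)]; ring
  have e2 : ∀ k, k ≤ m → (tent 1)^[k + 2] (1 / 2 - ε) = 2 ^ (k + 2) * ε := by
    intro k
    induction k with
    | zero =>
      intro _
      rw [show 0 + 2 = 1 + 1 by rfl, Function.iterate_succ_apply', e1, tent_hi _ (by linarith)]
      ring
    | succ k ih =>
      intro hk
      rw [show k + 1 + 2 = (k + 2) + 1 by ring, Function.iterate_succ_apply', ih (by omega),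
        tent_lo _ (by linarith [hq (k + 2) (by omega)])]
      ring
  have e3 : ∀ k, 2 ≤ k → k < m + 2 → (tent 1)^[k] (1 / 2 - ε) = 2 ^ k * ε := by
    intro k a b
    have := e2 (k - 2) (by omega)
    rwa [show k - 2 + 2 = k by omega] at this
  refine allowed_of _ (x := 1 / 2 - ε) ⟨by linarith, by linarith⟩ ?_
  rintro ⟨i, hi⟩ ⟨j, hj⟩ hij
  rw [sigma_lt] at hij
  simp only [] at hij ⊢
  split_ifs at hij with a b b
  · obtain rfl : i = 0 := by omega
    obtain rfl : j = 1 := by omega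
    rw [e1, Function.iterate_zero_apply]; linarith
  · omega
  · rw [e3 i (by omega) hi]
    have := hq i (by omega)
    obtain rfl | rfl : j = 0 ∨ j = 1 := by omega
    · rw [Function.iterate_zero_apply]; linarith
    · rw [e1]; linarith
  · rw [e3 i (by omega) hi, e3 j (by omega) hj]
    exact mul_lt_mul_of_pos_right (pow_lt_pow_right₀ (by norm_num) (by omega)) hpos

theorem result (μ : ℝ) (h1 : 1 / 2 < μ) (h2 : μ < 1) (n : ℕ) (hn : 1 ≤ n)
    (h : ∃ π : Equiv.Perm (Fin n), Forbidden μ π) :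
    ∃ m : ℕ, n = m + 2 ∧ Forbidden μ (sigma m) := by
  obtain ⟨π, hπ1, hπ2⟩ := h
  rcases hn.lt_or_eq with hn | rfl
  · obtain ⟨m, rfl⟩ : ∃ m, n = m + 2 := ⟨n - 2, by omega⟩
    refine ⟨m, rfl, sigma_full m, fun hs => hπ2 ?_⟩
    exact transfer h1 h2 (N := m + 1) (by omega) (by simpa using cond_of h1 m hs) π hπ1
  · exfalso
    refine hπ2 (allowed_of π (x := 0) ⟨le_rfl, zero_le_one⟩ fun i j hij => ?_)
    rw [Subsingleton.elim i j] at hij
    exact absurd hij (lt_irrefl _)

end Pool.Agent.Results.MP_25bc1d_an.SigmaShortest
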